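import Pool.Agent.Helper92.BW.GoalsB
import Pool.Agent.Helper82.FR.BIG

/-!
# BW, packet POS: a polyhedron of positive volume contains a cube of moderate size
-/

set_option autoImplicit false

namespace Pool.Agent.Helper95.BW

open MeasureTheory Pool.Agent.Helper92.VP Pool.Agent.Helper92.BW
open Pool.Agent.Helper92.FR hiding DepStmt

/-- The number of the rows is at most the size. -/
theorem len_le (S : Sys) : S.1 + S.2.length ≤ ssize S := by
  unfold ssize
  have h : S.2.length ≤ (S.2.map fun r => (r.1.map RQ.bits).sum + r.2.bits).sum := by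
    have h1 : (S.2.map fun _ => 1).sum ≤
        (S.2.map fun r => (r.1.map RQ.bits).sum + r.2.bits).sum := by
      apply List.sum_le_sum
      intro r _
      have : r.2.bits = 1 + Nat.size r.2.2.1.val + Nat.size r.2.2.2.val := rfl
      omega
    simpa using h1
  omega

theorem num (N L t : ℕ) (hN : N ≤ L) (ht : t = 20 * (L + 1) ^ 3) :
    (N : ℝ) * 2 ^ L * (L * ((Nat.factorial N : ℝ) * ((2 : ℝ) ^ L) ^ N)) ≤ 2 ^ t := by
  have h1 : (N : ℝ) ≤ 2 ^ L := by
    have : N ≤ 2 ^ L := hN.trans (Nat.lt_two_pow_self).le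
    exact_mod_cast this
  have h2 : (L : ℝ) ≤ 2 ^ L := by
    exact_mod_cast (Nat.lt_two_pow_self (n := L)).le
  have h3 : (Nat.factorial N : ℝ) ≤ 2 ^ (L ^ 2) := by
    have h3 : Nat.factorial N ≤ 2 ^ (L ^ 2) := by
      calc Nat.factorial N ≤ N ^ N := Nat.factorial_le_pow _
        _ ≤ (2 ^ N) ^ N := Nat.pow_le_pow_left (Nat.lt_two_pow_self).le _
        _ = 2 ^ (N * N) := by rw [← pow_mul]
        _ ≤ 2 ^ (L ^ 2) := by
          apply Nat.pow_le_pow_right (by norm_num)
          rw [sq]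
          exact Nat.mul_le_mul hN hN
    exact_mod_cast h3
  have h4 : ((2 : ℝ) ^ L) ^ N ≤ 2 ^ (L ^ 2) := by
    rw [← pow_mul]
    apply pow_le_pow_right₀ (by norm_num)
    rw [sq]
    exact Nat.mul_le_mul le_rfl hN
  calc (N : ℝ) * 2 ^ L * (L * ((Nat.factorial N : ℝ) * ((2 : ℝ) ^ L) ^ N))
      ≤ (2 ^ L * 2 ^ L) * (2 ^ L * (2 ^ (L ^ 2) * 2 ^ (L ^ 2))) := by gcongr
    _ = 2 ^ (L + L + (L + (L ^ 2 + L ^ 2))) := by rw [pow_add, pow_add, pow_add, pow_add]
    _ ≤ 2 ^ t := by
      apply pow_le_pow_right₀ (by norm_num)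
      rw [ht]
      nlinarith [Nat.zero_le (L ^ 3)]

theorem pos : PosStmt := by
  classical
  intro S hbd hvol
  have hne : (sol S).Nonempty := by
    by_contra h
    rw [Set.not_nonempty_iff_eq_empty] at h
    rw [h] at hvol
    simp [vol] at hvol
  obtain ⟨x0, hx0⟩ := hne
  have hz : ∀ r ∈ S.2, (∀ j : Fin S.1, coef r j = 0) → r.2.val ≤ 0 := by
    intro r hr h0
    have := hx0 r hr
    simpa [h0] using this
  choose D a b hD ha hb1 hb2 using Pool.Agent.Helper82.FR.int_row
  have hrow : ∀ r ∈ S.2, (r.1.map RQ.bits).sum + r.2.bits ≤ ssize S := by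
    intro r hr
    unfold ssize
    have h1 := List.single_le_sum (l := S.2.map fun r => (r.1.map RQ.bits).sum + r.2.bits)
      (fun _ _ => Nat.zero_le _) _ (List.mem_map_of_mem (f := fun r : List RQ × RQ =>
        (r.1.map RQ.bits).sum + r.2.bits) hr)
    omega
  -- the scaled rows
  have hscale : ∀ (r : List RQ × RQ) (y : Fin S.1 → ℝ), ∑ j : Fin S.1, (a r j : ℝ) * y j =
      (D r : ℝ) * ∑ j : Fin S.1, coef r j * y j := by
    intro r y
    rw [Finset.mul_sum]
    apply Finset.sum_congr rfl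
    intro j _
    rw [← (ha r j).1, mul_assoc]
  have h1 : ∀ (r : List RQ × RQ) (y : Fin S.1 → ℝ), (r.2.val ≤ ∑ j : Fin S.1, coef r j * y j) ↔
      ((b r : ℝ) ≤ ∑ j : Fin S.1, (a r j : ℝ) * y j) := by
    intro r y
    have hDr : (0 : ℝ) < D r := by exact_mod_cast hD r
    rw [hscale, ← hb1 r]
    exact (mul_le_mul_iff_right₀ hDr).symm
  let ι := {r : List RQ × RQ // r ∈ S.2 ∧ ∃ j : Fin S.1, coef r j ≠ 0}
  have hfin : Finite ι := by
    have : Finite {r // r ∈ S.2} := (List.finite_toSet S.2).to_subtype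
    exact Finite.of_injective (fun x : ι => (⟨x.1, x.2.1⟩ : {r // r ∈ S.2}))
      (fun x y hxy => Subtype.ext (congrArg (fun z : {r // r ∈ S.2} => z.1) hxy))
  let hft : Fintype ι := Fintype.ofFinite ι
  -- the empty case
  rcases isEmpty_or_nonempty ι with hem | hne
  · refine ⟨x0, fun x _ r hr => ?_⟩
    have h0 : ∀ j : Fin S.1, coef r j = 0 := by
      intro j
      by_contra hj
      exact hem.false ⟨r, hr, j, hj⟩
    have := hz r hr h0
    simpa [h0] using this
  let a' : ι → Fin S.1 → ℤ := fun r j => a r.1 j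
  let b' : ι → ℤ := fun r => b r.1
  have hset : sol S = Pool.Agent.Helper7.FR.Ph a' b' := by
    ext y
    constructor
    · intro h r
      exact (h1 r.1 y).1 (h r.1 r.2.1)
    · intro h r hr
      by_cases h0 : ∀ j : Fin S.1, coef r j = 0
      · have := hz r hr h0
        simpa [h0] using this
      · push Not at h0
        exact (h1 r y).2 (h ⟨r, hr, h0⟩)
  have hclosed : IsClosed (Pool.Agent.Helper7.FR.Ph a' b') := by
    have h1 : Pool.Agent.Helper7.FR.Ph a' b' =
        ⋂ k, {x : Fin S.1 → ℝ | (b' k : ℝ) ≤ ∑ j, (a' k j : ℝ) * x j} := by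
      ext y
      simp [Pool.Agent.Helper7.FR.Ph]
    rw [h1]
    apply isClosed_iInter
    intro k
    exact isClosed_le continuous_const (by fun_prop)
  have hcomp : IsCompact (Pool.Agent.Helper7.FR.Ph a' b') := by
    rw [hset] at hbd
    exact Metric.isCompact_of_isClosed_isBounded hclosed hbd
  have hane : ∀ k, ∃ j, a' k j ≠ 0 := by
    rintro ⟨r, hr, j, hj⟩
    refine ⟨j, fun h0 => ?_⟩
    have h2 := (ha r j).1
    have h3 : a r j = 0 := h0
    rw [h3, Int.cast_zero] at h2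
    rcases mul_eq_zero.1 h2 with h4 | h4
    · have : (0 : ℝ) < D r := by exact_mod_cast hD r
      linarith
    · exact hj h4
  have hB : ∀ (k : ι) (j : Fin S.1), |a' k j| ≤ 2 ^ ssize S := fun k j =>
    ((ha k.1 j).2).trans (pow_le_pow_right₀ (by norm_num) (hrow k.1 k.2.1))
  have hvol' : 0 < volume (Pool.Agent.Helper7.FR.Ph a' b') := by
    rw [← hset]
    by_contra h
    have h0 : volume (sol S) = 0 := le_antisymm (not_lt.1 h) bot_le
    rw [vol, h0] at hvol
    simp at hvol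
  obtain ⟨x, hx⟩ := Pool.Agent.Helper7.FR.margin a' b' (2 ^ ssize S) hB
    (one_le_pow₀ (by norm_num)) hcomp hane hvol'
  have hlen := len_le S
  have hcard : Fintype.card ι ≤ ssize S := by
    have h2 : Fintype.card ι ≤ S.2.toFinset.card := by
      rw [← Fintype.card_coe]
      refine Fintype.card_le_of_injective
        (fun x : ι => (⟨x.1, List.mem_toFinset.2 x.2.1⟩ : S.2.toFinset)) ?_
      intro x y hxy
      exact Subtype.ext (congrArg (fun z : S.2.toFinset => z.1) hxy)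
    have h3 := List.toFinset_card_le S.2
    omega
  have hN : S.1 ≤ ssize S := by omega
  have hnum := num S.1 (ssize S) _ hN rfl
  have hcast : (((2 ^ ssize S : ℤ)) : ℝ) = (2 : ℝ) ^ ssize S := by
    rw [Int.cast_pow]
    rfl
  rw [hcast] at hx
  refine ⟨x, fun y hy r hr => ?_⟩
  by_cases h0 : ∀ j : Fin S.1, coef r j = 0
  · have := hz r hr h0
    simpa [h0] using this
  · push Not at h0
    rw [h1 r y]
    have hm := hx ⟨r, hr, h0⟩
    have e1 : ∀ j, (a' ⟨r, hr, h0⟩ j : ℝ) = (a r j : ℝ) := fun _ => rfl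
    have e2 : (b' ⟨r, hr, h0⟩ : ℝ) = (b r : ℝ) := rfl
    simp only [e1, e2] at hm
    -- the change of the row
    have hch : (∑ j : Fin S.1, (a r j : ℝ) * x j) - S.1 * 2 ^ ssize S *
        (1 / 2 ^ (20 * (ssize S + 1) ^ 3)) ≤ ∑ j : Fin S.1, (a r j : ℝ) * y j := by
      have h3 : ∀ j : Fin S.1, (a r j : ℝ) * x j - 2 ^ ssize S *
          (1 / 2 ^ (20 * (ssize S + 1) ^ 3)) ≤ (a r j : ℝ) * y j := by
        intro j
        have h4 : |(a r j : ℝ)| ≤ 2 ^ ssize S := by
          have := hB ⟨r, hr, h0⟩ j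
          have h5 : |a r j| ≤ 2 ^ ssize S := this
          exact_mod_cast h5
        obtain ⟨g1, g2⟩ := hy j
        have h5 : |(a r j : ℝ) * (x j - y j)| ≤ 2 ^ ssize S *
            (1 / 2 ^ (20 * (ssize S + 1) ^ 3)) := by
          rw [abs_mul]
          apply mul_le_mul h4 _ (abs_nonneg _) (by positivity)
          rw [abs_le]
          constructor
          · linarith
          · have : (0 : ℝ) ≤ 1 / 2 ^ (20 * (ssize S + 1) ^ 3) := by positivity
            linarith
        have h6 := (abs_le.1 h5).2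
        have h7 : (a r j : ℝ) * (x j - y j) = (a r j : ℝ) * x j - (a r j : ℝ) * y j := by ring
        linarith
      have h4 := Finset.sum_le_sum fun j (_ : j ∈ (Finset.univ : Finset (Fin S.1))) => h3 j
      rw [Finset.sum_sub_distrib, Finset.sum_const, Finset.card_univ, Fintype.card_fin,
        nsmul_eq_mul] at h4
      linarith
    have hc' : (Fintype.card ι : ℝ) ≤ ssize S := by exact_mod_cast hcard
    have hP : (0 : ℝ) < (Nat.factorial S.1 : ℝ) * ((2 : ℝ) ^ ssize S) ^ S.1 := by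
      have h6 : (0 : ℝ) < (Nat.factorial S.1 : ℝ) := by exact_mod_cast Nat.factorial_pos S.1
      positivity
    have hcpos : (0 : ℝ) < Fintype.card ι := by exact_mod_cast Fintype.card_pos
    obtain ⟨m, hmdef⟩ : ∃ m : ℝ, m = (∑ j : Fin S.1, (a r j : ℝ) * x j) - b r := ⟨_, rfl⟩
    rw [← hmdef] at hm
    have hm0 : 0 < m := by
      by_contra h
      have : (Fintype.card ι : ℝ) * ((Nat.factorial S.1 : ℝ) * ((2 : ℝ) ^ ssize S) ^ S.1) * m ≤ 0 :=
        mul_nonpos_of_nonneg_of_nonpos (by positivity) (not_lt.1 h)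
      linarith
    have hm2 : 1 ≤ (ssize S : ℝ) * ((Nat.factorial S.1 : ℝ) * ((2 : ℝ) ^ ssize S) ^ S.1) * m :=
      hm.trans (mul_le_mul_of_nonneg_right (mul_le_mul_of_nonneg_right hc' hP.le) hm0.le)
    have hT : (0 : ℝ) < 2 ^ (20 * (ssize S + 1) ^ 3) := by positivity
    have hfin : (S.1 : ℝ) * 2 ^ ssize S * (1 / 2 ^ (20 * (ssize S + 1) ^ 3)) ≤ m := by
      rw [mul_one_div, div_le_iff₀ hT]
      have hA0 : (0 : ℝ) ≤ (S.1 : ℝ) * 2 ^ ssize S := by positivity
      calc (S.1 : ℝ) * 2 ^ ssize S = (S.1 : ℝ) * 2 ^ ssize S * 1 := (mul_one _).symm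
        _ ≤ (S.1 : ℝ) * 2 ^ ssize S * ((ssize S : ℝ) *
            ((Nat.factorial S.1 : ℝ) * ((2 : ℝ) ^ ssize S) ^ S.1) * m) :=
            mul_le_mul_of_nonneg_left hm2 hA0
        _ = (S.1 : ℝ) * 2 ^ ssize S * ((ssize S : ℝ) *
            ((Nat.factorial S.1 : ℝ) * ((2 : ℝ) ^ ssize S) ^ S.1)) * m := by ring
        _ ≤ 2 ^ (20 * (ssize S + 1) ^ 3) * m := mul_le_mul_of_nonneg_right hnum hm0.le
        _ = m * 2 ^ (20 * (ssize S + 1) ^ 3) := mul_comm _ _
    linarith

end Pool.Agent.Helper95.BW
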